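import Pool.Agent.H839R2.HO.RFin

/-!
# Fibre dimension of Riemannian submersions from positive curvature (MP_a61a4c_gt, Q1: disproved)

The metric on `S² × S³ ⊂ ℝ³ × ℝ⁴` is given by its cometric, the quadratic form
`|L|² + |M|² + |L + M|² + 2 μ (L + M)₁ (L + M)₃ + 2 ε ⟨L, v⟩ ⟨M, x⟩ + (ε² / (128 μ²)) (3 L₁² - L₃²)`
in the momenta `L = x × p` and `M_i = ⟨b, e_i y⟩ / 2` of a covector `(p, b)` at `(x, y)`; `e_i` are the
imaginary quaternion units acting on `ℝ⁴` by left multiplications, `v = (1, 1, 0)`, and `μ`, then `ε`,
are small positive constants.  It has positive sectional curvature (helper878's five-dimensional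
version of the team's metric on `S² × S²`).

The cometric of a covector `(p, 0)` depends only on `(x, p)`.  So it defines a metric `h` on `S²`, and
the projection `S² × S³ → S²`, whose horizontal vectors are the vectors dual to the covectors `(p, 0)`,
is a Riemannian submersion.  The fibres have dimension `3`, the base has dimension `2`.

The positivity of the curvature is joint work of the team on the Hopf problem: helpers 118, 144, 235,
308, 349, 366, 381, 464, 498, 515, 563, 712, 728, 754, 758, 821, 829, 839, 840, 878, 893, 898, 902,
907, 917, 952, 989.
-/

open Manifold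

open Pool.Agent.H839R2.RS Pool.Agent.H839R2.FD in
/-- For suitable smooth Riemannian metrics `g` on `S² × S³`, of strictly positive sectional curvature,
and `h` on `S²`, the projection `S² × S³ → S²` is a Riemannian submersion; its fibre dimension is `3`,
and the base has dimension `2`.  So the bound `k < dim B` of Q1 fails. -/
theorem Pool.Agent.Results.MP_a61a4c_gt.FiberDimensionThree.result :
    PositiveProjection 3 2 (𝓡 2) Sphere2 (𝓡 3) Sphere3 ∧ ¬ FiberDimensionBound :=
  main
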